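import Mathlib
import Pool.Agent.J4H35.CR.P2

/-! The criterion with cell-level coefficients, and the layered choice of the multipliers. -/

open Finset Filter
open scoped ContDiff

namespace Pool.Agent.J4H35.CR

open Pool.Agent.H378R2 Pool.Agent.H95R2.BG Pool.Agent.Y826.Z Pool.Agent.J4H35.ZZ

/-- S2 for quadratic forms, beyond the level `1/2` -/
theorem S2quad_c3 (hP2 : S_P23) {K0 : ℕ} {ι : Type} (A : Finset ι) (τ : ℝ) (hτ : 0 < τ) (hτ' : τ < 1 / 8)
    (F : ι → Fin K0 → ℝ → ℝ) (c : ι → Fin K0 → ℝ) (hF : ∀ a ∈ A, ∀ j, GF (F a j) (c a j))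
    (x : ι → ι → ℝ) (hsum : ∀ a ∈ A, ∀ b ∈ A, x a b ≠ 0 → (∑ j, c a j + ∑ j, c b j ≤ 2 ∨
      (∑ j, c a j + ∑ j, c b j ≤ 54 / 25 ∧ ∃ δ : ℝ, 0 < δ ∧ GoodT3 δ (tp (c a) (c b))))) (ε : ℝ) (hε : 0 < ε) :
    ∃ D0 : ℕ, ∀ D : ℕ, D0 ≤ D → ∀ h : Fin (K0 + 1) → ℕ, Sep D h → ∀ (i : Fin (K0 + 1)) (a0 : ℕ),
      (a0 + h i).Coprime (WD D) → ∀ᶠ X : ℝ in atTop,
      |∑ n ∈ Icc 1 ⌊3 * X⌋₊, nu X (WD D) a0 n * th (n + h i) * (∑ a ∈ A, ∑ b ∈ A, x a b *
          ((∏ j, vv τ D X (F a j) ((n : ℤ) + hrem h i j)) * ∏ j, vv τ D X (F b j) ((n : ℤ) + hrem h i j))) -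
        NN τ D X (K0 + 1) * Real.log X * ((1 / 4 - τ) * ∑ a ∈ A, ∑ b ∈ A, x a b * ∏ j, DD (F a j) (F b j))| ≤
      ε * (NN τ D X (K0 + 1) * Real.log X) := by
  classical
  obtain ⟨hε', hε''⟩ := Quad.eps_le A x ε hε
  set ε' := ε / (∑ a ∈ A, ∑ b ∈ A, |x a b| + 1) with hdef
  have key : ∀ p ∈ (A ×ˢ A).filter (fun p => x p.1 p.2 ≠ 0), ∃ D0 : ℕ, ∀ D : ℕ, D0 ≤ D →
      ∀ h : Fin (K0 + 1) → ℕ, Sep D h → ∀ (i : Fin (K0 + 1)) (a : ℕ),
      (a + h i).Coprime (WD D) → ∀ᶠ X : ℝ in atTop,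
      |∑ n ∈ Icc 1 ⌊3 * X⌋₊, nu X (WD D) a n * th (n + h i) *
          ∏ j : Fin K0, (vv τ D X (F p.1 j) ((n : ℤ) + hrem h i j) *
            vv τ D X (F p.2 j) ((n : ℤ) + hrem h i j)) -
        NN τ D X (K0 + 1) * Real.log X * ((1 / 4 - τ) * ∏ j, DD (F p.1 j) (F p.2 j))| ≤
      ε' * (NN τ D X (K0 + 1) * Real.log X) := by
    intro p hp
    rw [Finset.mem_filter, Finset.mem_product] at hp
    exact hP2 τ hτ hτ' (F p.1) (F p.2) (c p.1) (c p.2) (hF _ hp.1.1) (hF _ hp.1.2)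
      (hsum _ hp.1.1 _ hp.1.2 hp.2) ε' hε'
  choose! D0 hD0 using key
  refine ⟨((A ×ˢ A).filter (fun p => x p.1 p.2 ≠ 0)).sup D0, fun D hD h hS i a0 hcop => ?_⟩
  have hall : ∀ᶠ X : ℝ in atTop, ∀ p ∈ (A ×ˢ A).filter (fun p => x p.1 p.2 ≠ 0),
      |∑ n ∈ Icc 1 ⌊3 * X⌋₊, nu X (WD D) a0 n * th (n + h i) *
          ∏ j : Fin K0, (vv τ D X (F p.1 j) ((n : ℤ) + hrem h i j) *
            vv τ D X (F p.2 j) ((n : ℤ) + hrem h i j)) -
        NN τ D X (K0 + 1) * Real.log X * ((1 / 4 - τ) * ∏ j, DD (F p.1 j) (F p.2 j))| ≤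
      ε' * (NN τ D X (K0 + 1) * Real.log X) := by
    rw [Filter.eventually_all_finset]
    intro p hp
    exact hD0 p hp D ((Finset.le_sup hp).trans hD) h hS i a0 hcop
  filter_upwards [hall, NN_pos τ (by linarith) D (K0 + 1), eventually_ge_atTop 1] with X hX hN hX1
  have hlog : 0 ≤ Real.log X := Real.log_nonneg hX1
  have := Quad.gen A x
    (fun a b => ∑ n ∈ Icc 1 ⌊3 * X⌋₊, nu X (WD D) a0 n * th (n + h i) *
          ∏ j : Fin K0, (vv τ D X (F a j) ((n : ℤ) + hrem h i j) *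
            vv τ D X (F b j) ((n : ℤ) + hrem h i j)))
    (fun a b => (1 / 4 - τ) * ∏ j, DD (F a j) (F b j)) (NN τ D X (K0 + 1) * Real.log X) ε ε'
    (mul_nonneg hN.le hlog) hε''
    (fun a ha b hb h0 => hX (a, b) (Finset.mem_filter.2 ⟨Finset.mem_product.2 ⟨ha, hb⟩, h0⟩))
  have e2 : ∑ n ∈ Icc 1 ⌊3 * X⌋₊, nu X (WD D) a0 n * th (n + h i) * (∑ a ∈ A, ∑ b ∈ A, x a b *
          ((∏ j, vv τ D X (F a j) ((n : ℤ) + hrem h i j)) * ∏ j, vv τ D X (F b j) ((n : ℤ) + hrem h i j))) =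
      ∑ a ∈ A, ∑ b ∈ A, x a b * ∑ n ∈ Icc 1 ⌊3 * X⌋₊, nu X (WD D) a0 n * th (n + h i) *
          ∏ j : Fin K0, (vv τ D X (F a j) ((n : ℤ) + hrem h i j) *
            vv τ D X (F b j) ((n : ℤ) + hrem h i j)) := by
    simp only [Finset.mul_sum]
    rw [Finset.sum_comm]
    refine Finset.sum_congr rfl fun a _ => ?_
    rw [Finset.sum_comm]
    refine Finset.sum_congr rfl fun b _ => ?_
    refine Finset.sum_congr rfl fun n _ => ?_
    rw [Finset.prod_mul_distrib]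
    ring
  have e3 : ∑ a ∈ A, ∑ b ∈ A, x a b * ((1 / 4 - τ) * ∏ j, DD (F a j) (F b j)) =
      (1 / 4 - τ) * ∑ a ∈ A, ∑ b ∈ A, x a b * ∏ j, DD (F a j) (F b j) := by
    simp only [Finset.mul_sum]
    refine Finset.sum_congr rfl fun a _ => Finset.sum_congr rfl fun b _ => ?_
    ring
  rw [e2, ← e3]
  exact this

/-- the asymptotic lower bound for the quadratic form -/
theorem lim_qq_c3 (hP2 : S_P23) {K0 N1 M : ℕ} {f : ℕ → ℝ → ℝ} {β : ℝ} (hN1 : 0 < N1) (hf : Cells N1 M f β)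
    (F : (Fin (K0 + 1) → ℕ) → ℝ) (A : Finset (Fin K0 → ℕ)) (hA : A ⊆ Box K0 M)
    (κ : (Fin K0 → ℕ) → (Fin K0 → ℕ) → ℝ) (hκ : ∀ c ∈ A, ∀ c' ∈ A, κ c c' ≠ 0 → Ev3 N1 c c')
    (τ : ℝ) (hτ : 0 < τ) (hτ' : τ < 1 / 8) (ε : ℝ) (hε : 0 < ε) :
    ∃ D0 : ℕ, ∀ D : ℕ, D0 ≤ D → ∀ h : Fin (K0 + 1) → ℕ, Sep D h → ∀ (i : Fin (K0 + 1)) (a : ℕ),
      (a + h i).Coprime (WD D) → ∀ᶠ X : ℝ in atTop,
      NN τ D X (K0 + 1) * Real.log X *
          ((1 / 4 - τ) * (β ^ K0 * ∑ c ∈ A, κ c c * UU M F i c ^ 2) - ε) ≤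
        ∑ n ∈ Icc 1 ⌊3 * X⌋₊, nu X (WD D) a n * (th (n + h i) * qqc τ D X f M F h i A κ n) := by
  classical
  have hN : (0 : ℝ) < N1 := by exact_mod_cast hN1
  have key := fun i : Fin (K0 + 1) => S2quad_c3 hP2 A τ hτ hτ' (fun c j => f (c j))
    (fun c j => ((c j : ℝ) + 1) / N1)
    (fun c hc j => hf.good _ (Lim.mem_Box.1 (hA hc) j))
    (fun c c' => κ c c' * (UU M F i c * UU M F i c'))
    (fun a ha b hb hab => by
      rw [Lim.sum_len, Lim.sum_len, ← add_div]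
      have h1 : κ a b ≠ 0 := by
        intro h0
        rw [h0, zero_mul] at hab
        exact hab rfl
      rcases hκ a ha b hb h1 with h2 | ⟨h2, δ, hδ, hG⟩
      · left
        have := Lim.le_two hN1 h2
        exact_mod_cast this
      · right
        refine ⟨?_, δ, hδ, hG⟩
        rw [div_le_iff₀ hN]
        have h3 : (25 * ((rad a : ℝ) + (rad b : ℝ))) ≤ 54 * (N1 : ℝ) := by exact_mod_cast h2
        linarith) ε hε
  choose D0 hD0 using key
  refine ⟨Finset.univ.sup D0, fun D hD h hS i a hcop => ?_⟩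
  filter_upwards [hD0 i D ((Finset.le_sup (Finset.mem_univ i)).trans hD) h hS i a hcop] with X hX
  have e1 : ∀ n : ℕ, qqc τ D X f M F h i A κ n =
      ∑ a ∈ A, ∑ b ∈ A, κ a b * (UU M F i a * UU M F i b) *
          ((∏ j, vv τ D X (f (a j)) ((n : ℤ) + hrem h i j)) *
            ∏ j, vv τ D X (f (b j)) ((n : ℤ) + hrem h i j)) := by
    intro n
    unfold qqc prodv
    refine Finset.sum_congr rfl fun a _ => ?_
    refine Finset.sum_congr rfl fun b _ => ?_
    ring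
  have e2 : ∑ a ∈ A, ∑ b ∈ A, κ a b * (UU M F i a * UU M F i b) *
      ∏ j, DD (f (a j)) (f (b j)) =
      β ^ K0 * ∑ c ∈ A, κ c c * UU M F i c ^ 2 := by
    have h1 : ∀ a ∈ A, ∑ b ∈ A, κ a b * (UU M F i a * UU M F i b) *
        ∏ j, DD (f (a j)) (f (b j)) = β ^ K0 * (κ a a * UU M F i a ^ 2) := by
      intro a ha
      rw [Finset.sum_eq_single_of_mem a ha]
      · rw [Lim.prod_DD hf, if_pos rfl]
        ring
      · intro b _ hb
        rw [Lim.prod_DD hf, if_neg (Ne.symm hb), mul_zero]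
    rw [Finset.sum_congr rfl h1, ← Finset.mul_sum]
  simp only [e1, ← mul_assoc] at hX ⊢
  simp only [← mul_assoc] at e2
  rw [e2] at hX
  have := (abs_le.1 hX).1
  linarith

/-- the criterion with coefficients which depend on the cells -/
theorem crit3 (hP2 : S_P23) : S_CRIT3 := by
  classical
  intro K0 N1 M R hN1 hM hR F hF A hA hU r μ hμ α κ hpsd hκ hcrit h hadm Q b hQ hb ε hε
  suffices evFin : ∀ᶠ X : ℝ in atTop, (3 * X) ^ (1 - ε) ≤ ((goodN h Q b (3 * X)).card : ℝ) by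
    have h3 : Tendsto (fun X : ℝ => X / 3) atTop atTop := tendsto_id.atTop_div_const (by norm_num)
    filter_upwards [h3.eventually evFin] with X hX
    have e3 : 3 * (X / 3) = X := by ring
    rwa [e3] at hX
  -- notation
  set SF : ℝ := ∑ c ∈ Box (K0 + 1) M, F c ^ 2 with hSF
  have hSF0 : 0 ≤ SF := Finset.sum_nonneg fun c _ => sq_nonneg _
  obtain ⟨Sq, hSq⟩ : ∃ Sq : Fin (K0 + 1) → ℝ, ∀ i, Sq i =
      ∑ c ∈ A, κ c c * UU M F i c ^ 2 := ⟨_, fun _ => rfl⟩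
  obtain ⟨Sz, hSz⟩ : ∃ Sz : Fin r → Fin (K0 + 1) → ℝ, ∀ l i, Sz l i =
      ∑ c ∈ A, α l c ^ 2 / (2 - (rad c : ℝ) / N1) * UU M F i c ^ 2 :=
    ⟨_, fun _ _ => rfl⟩
  obtain ⟨Z, hZ⟩ : ∃ Z : ℝ, Z = ∑ i, ∑ l, μ l * Sz l i := ⟨_, rfl⟩
  have hcrit' : N1 * SF + Z < (∑ i, Sq i) / 4 := by
    have h1 : ∀ i, ∑ c ∈ A, (κ c c -
        4 * ∑ l, μ l * (α l c ^ 2 / (2 - (rad c : ℝ) / N1))) * UU M F i c ^ 2 =
        Sq i - 4 * ∑ l, μ l * Sz l i := by
      intro i
      simp only [sub_mul, Finset.sum_sub_distrib, hSq i, hSz]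
      congr 1
      simp only [Finset.mul_sum, Finset.sum_mul]
      rw [Finset.sum_comm]
      refine Finset.sum_congr rfl fun l _ => Finset.sum_congr rfl fun c _ => ?_
      ring
    rw [Finset.sum_congr rfl fun i _ => h1 i, Finset.sum_sub_distrib, ← Finset.mul_sum, ← hZ] at hcrit
    linarith
  -- choice of κ₀
  obtain ⟨κ₀, hκ0, hκ₀⟩ : ∃ κ₀ : ℝ, 0 < κ₀ ∧ (1 + κ₀) * (N1 * SF + Z) < (∑ i, Sq i) / 4 := by
    have hc : Continuous fun x : ℝ => (1 + x) * (N1 * SF + Z) := by fun_prop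
    have h1 : ∀ᶠ x in nhds (0 : ℝ), (1 + x) * (N1 * SF + Z) < (∑ i, Sq i) / 4 := by
      have h2 := hc.tendsto 0
      simp only [add_zero, one_mul] at h2
      exact h2.eventually_lt_const hcrit'
    have h3 : ∀ᶠ x in nhdsWithin (0 : ℝ) (Set.Ioi 0), (1 + x) * (N1 * SF + Z) < (∑ i, Sq i) / 4 :=
      h1.filter_mono nhdsWithin_le_nhds
    obtain ⟨x, hx1, hx2⟩ := (h3.and self_mem_nhdsWithin).exists
    exact ⟨x, hx2, hx1⟩
  obtain ⟨f, β, hf, hβ⟩ := cells_exist N1 M hN1 hM κ₀ hκ0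
  obtain ⟨ψ, hψ⟩ := psis_exist N1 hN1 κ₀ hκ0
  have hβ0 : 0 < β := hf.pos
  have hB0 : 0 < β ^ K0 := pow_pos hβ0 _
  -- choice of δ
  obtain ⟨δ, hδ, hδ8, hδg⟩ : ∃ δ : ℝ, 0 < δ ∧ δ < 1 / 8 ∧
      (1 + δ) * (β ^ (K0 + 1) * SF + δ) +
        (1 + δ) * (∑ i, ∑ l, μ l * (β ^ K0 * ((1 + κ₀) * Sz l i) + δ)) <
      ∑ i, ((1 / 4 - δ) * (β ^ K0 * Sq i) - δ) := by
    have hc1 : Continuous fun x : ℝ => (1 + x) * (β ^ (K0 + 1) * SF + x) +
        (1 + x) * (∑ i, ∑ l, μ l * (β ^ K0 * ((1 + κ₀) * Sz l i) + x)) := by fun_prop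
    have hc2 : Continuous fun x : ℝ => ∑ i, ((1 / 4 - x) * (β ^ K0 * Sq i) - x) := by fun_prop
    have h0 : (1 + (0 : ℝ)) * (β ^ (K0 + 1) * SF + 0) +
        (1 + (0 : ℝ)) * (∑ i, ∑ l, μ l * (β ^ K0 * ((1 + κ₀) * Sz l i) + 0)) <
        ∑ i, ((1 / 4 - (0 : ℝ)) * (β ^ K0 * Sq i) - 0) := by
      have e1 : ∑ i, ∑ l, μ l * (β ^ K0 * ((1 + κ₀) * Sz l i) + 0) = β ^ K0 * ((1 + κ₀) * Z) := by
        rw [hZ]
        simp only [Finset.mul_sum]
        refine Finset.sum_congr rfl fun i _ => Finset.sum_congr rfl fun l _ => ?_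
        ring
      have e2 : ∑ i, ((1 / 4 - (0 : ℝ)) * (β ^ K0 * Sq i) - 0) = β ^ K0 * ((∑ i, Sq i) / 4) := by
        rw [Finset.sum_div, Finset.mul_sum]
        refine Finset.sum_congr rfl fun i _ => ?_
        ring
      rw [e1, e2, pow_succ]
      have h1 : β * SF ≤ (1 + κ₀) * N1 * SF := mul_le_mul_of_nonneg_right hβ hSF0
      have h2 : β * SF + (1 + κ₀) * Z < (∑ i, Sq i) / 4 := by
        calc β * SF + (1 + κ₀) * Z ≤ (1 + κ₀) * N1 * SF + (1 + κ₀) * Z := by linarith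
          _ = (1 + κ₀) * (N1 * SF + Z) := by ring
          _ < _ := hκ₀
      have h3 := mul_lt_mul_of_pos_left h2 hB0
      calc (1 + (0 : ℝ)) * (β ^ K0 * β * SF + 0) + (1 + (0 : ℝ)) * (β ^ K0 * ((1 + κ₀) * Z))
          = β ^ K0 * (β * SF + (1 + κ₀) * Z) := by ring
        _ < _ := h3
    have h1 := (hc1.tendsto 0).eventually_lt (hc2.tendsto 0) h0
    have h3 := h1.filter_mono (nhdsWithin_le_nhds (s := Set.Ioi (0 : ℝ)))
    have h4 : ∀ᶠ x in nhdsWithin (0 : ℝ) (Set.Ioi 0), x < 1 / 8 :=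
      (gt_mem_nhds (by norm_num : (0 : ℝ) < 1 / 8)).filter_mono nhdsWithin_le_nhds
    obtain ⟨x, ⟨hx1, hx2⟩, hx3⟩ := ((h3.and h4).and self_mem_nhdsWithin).exists
    exact ⟨x, hx3, hx2, hx1⟩
  obtain ⟨g, hg⟩ : ∃ g : ℝ, g = (∑ i, ((1 / 4 - δ) * (β ^ K0 * Sq i) - δ)) -
      ((1 + δ) * (β ^ (K0 + 1) * SF + δ) +
        (1 + δ) * (∑ i, ∑ l, μ l * (β ^ K0 * ((1 + κ₀) * Sz l i) + δ))) := ⟨_, rfl⟩
  have hg0 : 0 < g := by rw [hg]; linarith
  -- choice of D
  obtain ⟨D1, hD1⟩ := lim_ww hN1 hM hR hf F hF δ hδ hδ8 δ hδ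
  obtain ⟨D2, hD2⟩ := lim_qq_c3 hP2 hN1 hf F A hA κ hκ δ hδ hδ8 δ hδ
  choose D3 hD3 using fun l => lim_zz_c hR hf hψ F hF A hA (α l) δ hδ hδ8 δ hδ
  obtain ⟨D, hD⟩ : ∃ D, D = D1 + D2 + ∑ l, D3 l + ∑ i, h i + Q := ⟨_, rfl⟩
  have hDl : ∀ l, D3 l ≤ D := by
    intro l
    have : D3 l ≤ ∑ l, D3 l := Finset.single_le_sum (f := D3) (fun _ _ => Nat.zero_le _) (mem_univ l)
    omega
  have hsep : Sep D h := crit_sep h hadm.1 D (by omega)
  obtain ⟨a, ha, hab⟩ := x2_class h hadm Q b hQ hb D (by omega)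
  have hQD := x2_dvd Q hQ D (by omega)
  have hWpos : (0 : ℝ) < WD D := by exact_mod_cast WD_pos D
  -- choice of X
  have evP := pointwise_c hR hf hψ F hF A hA hU r μ hμ α κ hpsd δ hδ hδ8 D h
  have evW := hD1 D (by omega) h hsep a
  have evQ : ∀ᶠ X : ℝ in atTop, ∀ i, _ :=
    eventually_all.2 fun i => hD2 D (by omega) h hsep i a (ha i)
  have evZ : ∀ᶠ X : ℝ in atTop, ∀ i l, _ :=
    eventually_all.2 fun i => eventually_all.2 fun l => hD3 l D (hDl l) h hsep i a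
  have evN := NN_pos δ (by linarith) D (K0 + 1)
  have evL := crit_log δ hδ
  have evB : ∀ᶠ X : ℝ in atTop, ((∑ i, h i : ℕ) : ℝ) + 40 ≤ X := eventually_ge_atTop _
  have evD := ww_le hN1 hM hf F δ hδ hδ8 D h (ε / 4) (by linarith)
  have evG := x2_growth (K0 + 1) (g / (20 * WD D * ((K0 + 1 : ℕ) * (1 + δ)))) ε
    (by positivity) hε
  filter_upwards [evP, evW, evQ, evZ, evN, evL, evB, evD, evG] with X hP hW hQ hZZ hN hL hB hDv hGr
  have hX3 : (3 : ℝ) ≤ X := by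
    have h2 : (0 : ℝ) ≤ ((∑ i, h i : ℕ) : ℝ) := Nat.cast_nonneg _
    linarith
  have hX0 : 0 < X := by linarith
  have hlogX : 0 < Real.log X := Real.log_pos (by linarith)
  have hlog4 : 0 ≤ Real.log (4 * X) := Real.log_nonneg (by linarith)
  -- the pointwise inequality, summed over i and multiplied by ν
  obtain ⟨G, hG⟩ : ∃ G : Finset ℕ, G = (Icc 1 ⌊3 * X⌋₊).filter (fun n => n ≡ a [MOD WD D] ∧
      ∃ i j, i ≠ j ∧ (n + h i).Prime ∧ (n + h j).Prime) := ⟨_, rfl⟩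
  obtain ⟨B, hBd⟩ : ∃ B : ℝ, B = ((K0 + 1 : ℕ) : ℝ) * Real.log (4 * X) * X ^ (ε / 4) := ⟨_, rfl⟩
  have hB0 : 0 ≤ B := by rw [hBd]; positivity
  have hpt : ∀ n ∈ Icc 1 ⌊3 * X⌋₊,
      ∑ i, (nu X (WD D) a n * (th (n + h i) * qqc δ D X f M F h i A κ n) -
        Real.log (4 * X) * ∑ l, μ l * (nu X (WD D) a n * zzc δ D X f ψ M F h i A (α l) n ^ 2)) ≤
      Real.log (4 * X) * (nu X (WD D) a n * ww δ D X f M F h n ^ 2) + (if n ∈ G then B else 0) := by
    intro n hn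
    have hBn : 0 ≤ (if n ∈ G then B else 0) := by split_ifs <;> simp [hB0]
    have hn1 : 1 ≤ n := (Finset.mem_Icc.1 hn).1
    have hn3 : (n : ℝ) ≤ 3 * X := by
      have := (Finset.mem_Icc.1 hn).2
      exact (Nat.le_floor_iff (by linarith)).1 this
    by_cases hnX : (n : ℝ) ≤ X
    · have h0 : nu X (WD D) a n = 0 := by
        unfold nu
        split_ifs
        · apply Phi_eq_zero_of_le (by positivity)
          rw [div_le_one hX0]; exact hnX
        · rfl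
      have : ∑ i, (nu X (WD D) a n * (th (n + h i) * qqc δ D X f M F h i A κ n) -
        Real.log (4 * X) * ∑ l, μ l * (nu X (WD D) a n * zzc δ D X f ψ M F h i A (α l) n ^ 2)) = 0 := by
        simp [h0]
      rw [this, h0]
      linarith
    · push Not at hnX
      have hnu := nu_nonneg X (WD D) a n
      have hnu1 : nu X (WD D) a n ≤ 1 := by
        unfold nu
        split_ifs
        · exact Phi_le_one _
        · norm_num
      have hthi : ∀ i, th (n + h i) ≤ Real.log (4 * X) := by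
        intro i
        unfold th
        split_ifs with hp
        · apply Real.log_le_log
          · have := hp.pos
            exact_mod_cast this
          · have h1 : h i ≤ ∑ i, h i :=
              Finset.single_le_sum (f := h) (fun _ _ => Nat.zero_le _) (mem_univ i)
            have h2 : (h i : ℝ) ≤ ((∑ i, h i : ℕ) : ℝ) := by exact_mod_cast h1
            push_cast
            push_cast at h2 hB
            linarith
        · exact hlog4
      have hww : 0 ≤ nu X (WD D) a n * ww δ D X f M F h n ^ 2 := mul_nonneg hnu (sq_nonneg _)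
      calc ∑ i, (nu X (WD D) a n * (th (n + h i) * qqc δ D X f M F h i A κ n) -
            Real.log (4 * X) * ∑ l, μ l * (nu X (WD D) a n * zzc δ D X f ψ M F h i A (α l) n ^ 2))
          = ∑ i, nu X (WD D) a n * (th (n + h i) * qqc δ D X f M F h i A κ n -
            Real.log (4 * X) * ∑ l, μ l * zzc δ D X f ψ M F h i A (α l) n ^ 2) := by
            refine Finset.sum_congr rfl fun i _ => ?_
            have : ∑ l, μ l * (nu X (WD D) a n * zzc δ D X f ψ M F h i A (α l) n ^ 2) =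
                nu X (WD D) a n * ∑ l, μ l * zzc δ D X f ψ M F h i A (α l) n ^ 2 := by
              rw [Finset.mul_sum]
              refine Finset.sum_congr rfl fun l _ => ?_
              ring
            rw [this]; ring
        _ ≤ ∑ i, nu X (WD D) a n * (th (n + h i) * ww δ D X f M F h n ^ 2) := by
            refine Finset.sum_le_sum fun i _ => ?_
            exact mul_le_mul_of_nonneg_left (hP n hnX hn3 i) hnu
        _ = (∑ i, th (n + h i)) * (nu X (WD D) a n * ww δ D X f M F h n ^ 2) := by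
            rw [Finset.sum_mul]
            refine Finset.sum_congr rfl fun i _ => ?_
            ring
        _ ≤ _ := by
            by_cases hcl : n ≡ a [MOD WD D]
            · by_cases htw : ∃ i j, i ≠ j ∧ (n + h i).Prime ∧ (n + h j).Prime
              · have hnG : n ∈ G := by
                  rw [hG, Finset.mem_filter]
                  exact ⟨hn, hcl, htw⟩
                rw [if_pos hnG]
                have h1 := x2_th_le h n (Real.log (4 * X)) hthi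
                have h2 : nu X (WD D) a n * ww δ D X f M F h n ^ 2 ≤ X ^ (ε / 4) := by
                  calc nu X (WD D) a n * ww δ D X f M F h n ^ 2
                      ≤ 1 * ww δ D X f M F h n ^ 2 :=
                        mul_le_mul_of_nonneg_right hnu1 (sq_nonneg _)
                    _ = ww δ D X f M F h n ^ 2 := one_mul _
                    _ ≤ _ := hDv n hn1 hn3
                have h3 : (∑ i, th (n + h i)) * (nu X (WD D) a n * ww δ D X f M F h n ^ 2) ≤ B := by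
                  rw [hBd]
                  calc (∑ i, th (n + h i)) * (nu X (WD D) a n * ww δ D X f M F h n ^ 2)
                      ≤ (((K0 + 1 : ℕ) : ℝ) * Real.log (4 * X)) *
                        (nu X (WD D) a n * ww δ D X f M F h n ^ 2) :=
                        mul_le_mul_of_nonneg_right h1 hww
                    _ ≤ (((K0 + 1 : ℕ) : ℝ) * Real.log (4 * X)) * X ^ (ε / 4) :=
                        mul_le_mul_of_nonneg_left h2 (by positivity)
                have h4 : 0 ≤ Real.log (4 * X) * (nu X (WD D) a n * ww δ D X f M F h n ^ 2) :=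
                  mul_nonneg hlog4 hww
                linarith
              · have hno : ∀ i j, i ≠ j → (n + h i).Prime → ¬ (n + h j).Prime := by
                  intro i j hij hi hj
                  exact htw ⟨i, j, hij, hi, hj⟩
                have h1 := crit_sum_th h n _ hlog4 hno hthi
                have h2 := mul_le_mul_of_nonneg_right h1 hww
                linarith
            · have h0 : nu X (WD D) a n = 0 := by
                unfold nu
                rw [if_neg hcl]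
              rw [h0]
              simp only [zero_mul, mul_zero, zero_add]
              exact hBn
  have hsum := Finset.sum_le_sum hpt
  rw [Finset.sum_add_distrib, ← Finset.mul_sum, Finset.sum_comm] at hsum
  have hGsum : ∑ n ∈ Icc 1 ⌊3 * X⌋₊, (if n ∈ G then B else 0) = (G.card : ℝ) * B := by
    rw [← Finset.sum_filter, Finset.sum_const, nsmul_eq_mul]
    congr 2
    congr 1
    ext n
    rw [Finset.mem_filter]
    constructor
    · exact fun hh => hh.2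
    · intro hh
      refine ⟨?_, hh⟩
      rw [hG] at hh
      exact (Finset.mem_filter.1 hh).1
  rw [hGsum] at hsum
  -- abbreviations
  obtain ⟨N, hNdef⟩ : ∃ N : ℝ, N = NN δ D X (K0 + 1) := ⟨_, rfl⟩
  obtain ⟨AA, hA⟩ : ∃ AA : ℝ, AA = ∑ n ∈ Icc 1 ⌊3 * X⌋₊, nu X (WD D) a n * ww δ D X f M F h n ^ 2 :=
    ⟨_, rfl⟩
  obtain ⟨Q', hQd⟩ : ∃ Q' : Fin (K0 + 1) → ℝ, ∀ i, Q' i = ∑ n ∈ Icc 1 ⌊3 * X⌋₊,
      nu X (WD D) a n * (th (n + h i) * qqc δ D X f M F h i A κ n) := ⟨_, fun _ => rfl⟩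
  obtain ⟨V, hV⟩ : ∃ V : Fin (K0 + 1) → Fin r → ℝ, ∀ i l, V i l = ∑ n ∈ Icc 1 ⌊3 * X⌋₊,
      nu X (WD D) a n * zzc δ D X f ψ M F h i A (α l) n ^ 2 := ⟨_, fun _ _ => rfl⟩
  rw [← hA] at hsum
  have hA0 : 0 ≤ AA := by
    rw [hA]
    exact Finset.sum_nonneg fun n _ => mul_nonneg (nu_nonneg _ _ _ _) (sq_nonneg _)
  have hV0 : ∀ i l, 0 ≤ V i l := by
    intro i l
    rw [hV]
    exact Finset.sum_nonneg fun n _ => mul_nonneg (nu_nonneg _ _ _ _) (sq_nonneg _)
  have hsum2 : ∑ i, (Q' i - Real.log (4 * X) * ∑ l, μ l * V i l) ≤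
      Real.log (4 * X) * AA + (G.card : ℝ) * B := by
    refine le_trans (le_of_eq ?_) hsum
    refine Finset.sum_congr rfl fun i _ => ?_
    rw [Finset.sum_sub_distrib, hQd i, ← Finset.mul_sum, Finset.sum_comm]
    congr 2
    refine Finset.sum_congr rfl fun l _ => ?_
    rw [hV, Finset.mul_sum]
  rw [← hNdef] at hN
  have hW' : AA ≤ N * (β ^ (K0 + 1) * SF + δ) := by rw [hA, hNdef]; exact hW
  have hQ' : ∀ i, N * Real.log X * ((1 / 4 - δ) * (β ^ K0 * Sq i) - δ) ≤ Q' i := by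
    intro i; rw [hNdef, hSq i, hQd i]; exact hQ i
  have hZ' : ∀ i l, V i l ≤ N * (β ^ K0 * ((1 + κ₀) * Sz l i) + δ) := by
    intro i l; rw [hNdef, hSz l i, hV i l]; exact hZZ i l
  have hNL : 0 < N * Real.log X := mul_pos hN hlogX
  have h1 : Real.log (4 * X) * AA ≤ N * Real.log X * ((1 + δ) * (β ^ (K0 + 1) * SF + δ)) := by
    calc Real.log (4 * X) * AA ≤ ((1 + δ) * Real.log X) * AA := mul_le_mul_of_nonneg_right hL hA0
      _ ≤ ((1 + δ) * Real.log X) * (N * (β ^ (K0 + 1) * SF + δ)) :=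
        mul_le_mul_of_nonneg_left hW' (by positivity)
      _ = _ := by ring
  have h2 : ∀ i l, Real.log (4 * X) * (μ l * V i l) ≤
      N * Real.log X * ((1 + δ) * (μ l * (β ^ K0 * ((1 + κ₀) * Sz l i) + δ))) := by
    intro i l
    have hm := mul_nonneg (hμ l) (hV0 i l)
    calc Real.log (4 * X) * (μ l * V i l) ≤ ((1 + δ) * Real.log X) * (μ l * V i l) :=
          mul_le_mul_of_nonneg_right hL hm
      _ ≤ ((1 + δ) * Real.log X) * (μ l * (N * (β ^ K0 * ((1 + κ₀) * Sz l i) + δ))) :=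
        mul_le_mul_of_nonneg_left (mul_le_mul_of_nonneg_left (hZ' i l) (hμ l)) (by positivity)
      _ = _ := by ring
  have h3 : N * Real.log X * ∑ i, ((1 / 4 - δ) * (β ^ K0 * Sq i) - δ) ≤ ∑ i, Q' i := by
    rw [Finset.mul_sum]
    exact Finset.sum_le_sum fun i _ => hQ' i
  have h4 : ∑ i, (Real.log (4 * X) * ∑ l, μ l * V i l) ≤
      N * Real.log X * ((1 + δ) * ∑ i, ∑ l, μ l * (β ^ K0 * ((1 + κ₀) * Sz l i) + δ)) := by
    rw [Finset.mul_sum, Finset.mul_sum]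
    refine Finset.sum_le_sum fun i _ => ?_
    rw [Finset.mul_sum, Finset.mul_sum, Finset.mul_sum]
    exact Finset.sum_le_sum fun l _ => h2 i l
  rw [Finset.sum_sub_distrib] at hsum2
  -- the lower bound for the number of good integers
  have h5 : N * Real.log X * g ≤ (G.card : ℝ) * B := by
    have e1 : N * Real.log X * g = N * Real.log X * (∑ i, ((1 / 4 - δ) * (β ^ K0 * Sq i) - δ)) -
        (N * Real.log X * ((1 + δ) * (β ^ (K0 + 1) * SF + δ)) +
        N * Real.log X * ((1 + δ) * (∑ i, ∑ l, μ l * (β ^ K0 * ((1 + κ₀) * Sz l i) + δ)))) := by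
      rw [hg]; ring
    rw [e1]
    linarith
  have hXe : 0 < X ^ (ε / 4) := by positivity
  have hK : (0 : ℝ) < ((K0 + 1 : ℕ) : ℝ) := by positivity
  have h6 : N * g ≤ (G.card : ℝ) * (((K0 + 1 : ℕ) : ℝ) * (1 + δ) * X ^ (ε / 4)) := by
    have h7 : (G.card : ℝ) * B ≤
        ((G.card : ℝ) * (((K0 + 1 : ℕ) : ℝ) * (1 + δ) * X ^ (ε / 4))) * Real.log X := by
      rw [hBd]
      have h8 : ((K0 + 1 : ℕ) : ℝ) * Real.log (4 * X) * X ^ (ε / 4) ≤
          ((K0 + 1 : ℕ) : ℝ) * ((1 + δ) * Real.log X) * X ^ (ε / 4) :=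
        mul_le_mul_of_nonneg_right (mul_le_mul_of_nonneg_left hL hK.le) hXe.le
      calc (G.card : ℝ) * (((K0 + 1 : ℕ) : ℝ) * Real.log (4 * X) * X ^ (ε / 4))
          ≤ (G.card : ℝ) * (((K0 + 1 : ℕ) : ℝ) * ((1 + δ) * Real.log X) * X ^ (ε / 4)) :=
            mul_le_mul_of_nonneg_left h8 (Nat.cast_nonneg _)
        _ = _ := by ring
    have h9 : (N * g) * Real.log X ≤
        ((G.card : ℝ) * (((K0 + 1 : ℕ) : ℝ) * (1 + δ) * X ^ (ε / 4))) * Real.log X := by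
      have e2 : (N * g) * Real.log X = N * Real.log X * g := by ring
      rw [e2]
      exact h5.trans h7
    exact le_of_mul_le_mul_right h9 hlogX
  -- lower bound for N
  have hNge : X / (20 * WD D * Real.log X ^ (K0 + 1)) ≤ N := by
    have hX40 : (40 : ℝ) ≤ X := by
      have h2 : (0 : ℝ) ≤ ((∑ i, h i : ℕ) : ℝ) := Nat.cast_nonneg _
      linarith
    have hLt : 0 < Lt δ X := Lt_pos (by linarith) (by linarith)
    have hBE := BE_PD_pos D
    have hBE1 := BE_PD_le_one D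
    have hLB : Lt δ X * BE (PD D) ≤ Real.log X := by
      have h7 : Lt δ X ≤ Real.log X := by
        unfold Lt
        have : (1 / 4 - δ) * Real.log X ≤ 1 * Real.log X :=
          mul_le_mul_of_nonneg_right (by linarith) hlogX.le
        linarith
      calc Lt δ X * BE (PD D) ≤ Lt δ X * 1 := mul_le_mul_of_nonneg_left hBE1 hLt.le
        _ = Lt δ X := mul_one _
        _ ≤ _ := h7
    have hpw : (1 / Real.log X) ^ (K0 + 1) ≤ (1 / (Lt δ X * BE (PD D))) ^ (K0 + 1) := by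
      apply pow_le_pow_left₀ (by positivity)
      exact one_div_le_one_div_of_le (mul_pos hLt hBE) hLB
    rw [hNdef]
    unfold NN
    calc X / (20 * WD D * Real.log X ^ (K0 + 1))
        = (X / 20) * (1 / (WD D : ℝ)) * (1 / Real.log X) ^ (K0 + 1) := by
          rw [one_div_pow]; field_simp
      _ ≤ MPhi X * (1 / (WD D : ℝ)) * (1 / Real.log X) ^ (K0 + 1) := by
          apply mul_le_mul_of_nonneg_right _ (by positivity)
          apply mul_le_mul_of_nonneg_right (MPhi_ge X hX40) (by positivity)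
      _ ≤ _ := by
          apply mul_le_mul_of_nonneg_left hpw
          have := MPhi_ge X hX40
          have h8 : 0 ≤ MPhi X := by linarith
          positivity
  have hGcard : (3 * X) ^ (1 - ε) ≤ (G.card : ℝ) := by
    have hden : (0 : ℝ) < ((K0 + 1 : ℕ) : ℝ) * (1 + δ) * X ^ (ε / 4) := by positivity
    have h7 : X / (20 * WD D * Real.log X ^ (K0 + 1)) * g ≤
        (G.card : ℝ) * (((K0 + 1 : ℕ) : ℝ) * (1 + δ) * X ^ (ε / 4)) :=
      (mul_le_mul_of_nonneg_right hNge hg0.le).trans h6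
    have h8 : (3 * X) ^ (1 - ε) * (((K0 + 1 : ℕ) : ℝ) * (1 + δ) * X ^ (ε / 4)) ≤
        X / (20 * WD D * Real.log X ^ (K0 + 1)) * g := by
      have hlp : 0 < Real.log X ^ (K0 + 1) := by positivity
      have e1 : X / (20 * WD D * Real.log X ^ (K0 + 1)) * g =
          (g / (20 * WD D * ((K0 + 1 : ℕ) * (1 + δ))) * X) *
            ((((K0 + 1 : ℕ) : ℝ) * (1 + δ)) / Real.log X ^ (K0 + 1)) := by
        field_simp
      rw [e1]
      have e2 : (3 * X) ^ (1 - ε) * (((K0 + 1 : ℕ) : ℝ) * (1 + δ) * X ^ (ε / 4)) =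
          ((3 * X) ^ (1 - ε) * X ^ (ε / 4) * Real.log X ^ (K0 + 1)) *
            ((((K0 + 1 : ℕ) : ℝ) * (1 + δ)) / Real.log X ^ (K0 + 1)) := by
        field_simp
      rw [e2]
      exact mul_le_mul_of_nonneg_right hGr (by positivity)
    exact le_of_mul_le_mul_right (h8.trans h7) hden
  refine hGcard.trans ?_
  have hsub : G ⊆ goodN h Q b (3 * X) := by
    intro n hn
    rw [hG, Finset.mem_filter] at hn
    unfold goodN
    rw [Finset.mem_filter]
    exact ⟨hn.1, (hn.2.1.of_dvd hQD).trans hab, hn.2.2⟩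
  exact_mod_cast Finset.card_le_card hsub

open LayAux in
/-- the layered choice of the multipliers -/
theorem lay3 (hC : S_CRIT3) : S_LAY3 := by
  intro K0 N1 M R L Dm hN1 hM hR hDm hL F hF A hA hUU hAR ρ hρ hEv r μ hμ T W hW0 hWA hWB hcrit h hadm Q b hQ
    hb ε hε
  have hN1r : (0 : ℝ) < N1 := by exact_mod_cast hN1
  have hσ0 : ∀ c : Fin K0 → ℕ, 0 ≤ (rad c : ℝ) / N1 := fun c => by positivity
  refine hC hN1 hM hR F hF A hA hUU r μ hμ
    (al L Dm μ T ρ (fun c : Fin K0 → ℕ => (rad c : ℝ) / N1))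
    (kk L Dm μ T ρ (fun c : Fin K0 → ℕ => (rad c : ℝ) / N1)) ?_ ?_ ?_ h hadm Q b hQ hb ε hε
  · intro Y
    exact psd μ hμ _ (bl L Dm μ T ρ (fun c : Fin K0 → ℕ => (rad c : ℝ) / N1)) _ Y
  · intro c hc c' hc' hne
    refine hEv c hc c' hc' ?_
    by_contra hcon
    exact hne (kk_zero L Dm μ T ρ _ hμ c c' (hσ0 c) (hσ0 c') (hρ c hc) (hρ c' hc') (by omega))
  · refine hcrit.trans_le ?_
    refine Finset.sum_le_sum fun i _ => Finset.sum_le_sum fun c hc => ?_
    refine mul_le_mul_of_nonneg_right ?_ (sq_nonneg _)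
    refine diag L Dm μ T ρ (fun c : Fin K0 → ℕ => (rad c : ℝ) / N1) hμ (W c) c (hσ0 c) ?_
      (hW0 c hc) (hWA c hc) (hWB c hc)
    show (rad c : ℝ) / N1 < 2
    rw [div_lt_iff₀ hN1r]
    have h1 := hAR c hc
    have h2 : rad c < 2 * N1 := by omega
    exact_mod_cast h2

end Pool.Agent.J4H35.CR
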